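import Pool.Agent.PFC.StmtsB1

/-!
Squad PFC, row EXI of block B1: existence of the deformation (assembly).
-/

set_option autoImplicit false

namespace Pool.Agent.PFC.B1.H16

open MulOpposite Pool.Agent.PFC.B1

section
variable {F Γ Γ0 A I I0 K : Type} [Field F] [Ring Γ] [Algebra (PowerSeries F) Γ]
  [Ring Γ0] [Algebra F Γ0] [Ring A] [Algebra F A] [Fintype I] [Fintype I0] [Fintype K]
  [Algebra (PowerSeries F) A]

theorem smul_eq (hA : ∀ r, algebraMap (PowerSeries F) A r =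
    algebraMap F A (PowerSeries.constantCoeff r)) (r : PowerSeries F) (x : A) :
    r • x = PowerSeries.constantCoeff r • x := by
  rw [Algebra.smul_def, hA, ← Algebra.smul_def]

/-- an `F`-linear map as a linear map over the power series -/
noncomputable def linPS (hA : ∀ r, algebraMap (PowerSeries F) A r =
    algebraMap F A (PowerSeries.constantCoeff r)) (g : A →ₗ[F] A) : A →ₗ[PowerSeries F] A where
  toFun := g
  map_add' := g.map_add
  map_smul' := fun r x => by
    rw [smul_eq hA, map_smul, smul_eq hA]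
    rfl

/-- the structure map on the residue level -/
noncomputable def jPS (hA : ∀ r, algebraMap (PowerSeries F) A r =
    algebraMap F A (PowerSeries.constantCoeff r)) (f : Fib F Γ Γ0) (j : Γ0 →ₐ[F] A) :
    Γ →ₐ[PowerSeries F] A :=
  { j.toRingHom.comp f.q with
    commutes' := fun r => by
      show j (f.q (algebraMap (PowerSeries F) Γ r)) = algebraMap (PowerSeries F) A r
      rw [f.sc, hA]
      exact j.commutes _ }

theorem jPS_apply (hA : ∀ r, algebraMap (PowerSeries F) A r =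
    algebraMap F A (PowerSeries.constantCoeff r)) (f : Fib F Γ Γ0) (j : Γ0 →ₐ[F] A) (γ : Γ) :
    jPS hA f j γ = j (f.q γ) := rfl

/-- the residue level -/
noncomputable def resPS (hA : ∀ r, algebraMap (PowerSeries F) A r =
    algebraMap F A (PowerSeries.constantCoeff r)) (c : FS (PowerSeries F) Γ I)
    (c0 : FS F Γ0 I0) (f : Fib F Γ Γ0) (sp0 : Split c0 A) (a : A →ₗ[F] A)
    (ha : ∀ x, ∑ i, ∑ l, sp0.j (f.q (c.b i)) *
      a (sp0.j (f.q (c.b' i)) * x * sp0.j (f.q (c.b l))) * sp0.j (f.q (c.b' l)) =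
        x - sp0.j (sp0.pr x)) : Res F Γ A I c where
  j := jPS hA f sp0.j
  hX := by rw [hA]; simp
  hj := fun γ h => by
    apply f.ker
    rw [jPS_apply] at h
    have h2 := sp0.pr_j (f.q γ)
    rw [h, map_zero] at h2
    exact h2.symm
  e := linPS hA (sp0.j.toLinearMap ∘ₗ sp0.pr)
  e1 := fun x => by
    obtain ⟨γ, hγ⟩ := f.surj (sp0.pr x)
    refine ⟨γ, ?_⟩
    show sp0.j (sp0.pr x) = sp0.j (f.q γ)
    rw [hγ]
  e2 := fun γ => by
    show sp0.j (sp0.pr (sp0.j (f.q γ))) = sp0.j (f.q γ)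
    rw [sp0.pr_j]
  e3 := fun γ x => by
    show sp0.j (sp0.pr (sp0.j (f.q γ) * x)) = sp0.j (f.q γ) * sp0.j (sp0.pr x)
    rw [sp0.pr_l, map_mul]
  e4 := fun γ x => by
    show sp0.j (sp0.pr (x * sp0.j (f.q γ))) = sp0.j (sp0.pr x) * sp0.j (f.q γ)
    rw [sp0.pr_r, map_mul]
  a := linPS hA a
  a_id := ha

/-- separability over `Γ` -/
def sepPS (hA : ∀ r, algebraMap (PowerSeries F) A r =
    algebraMap F A (PowerSeries.constantCoeff r)) (f : Fib F Γ Γ0) (j : Γ0 →ₐ[F] A)
    (s : Sep Γ0 A K j.toRingHom) : Sep Γ A K (jPS hA f j).toRingHom where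
  u := s.u
  v := s.v
  one := s.one
  bal := fun X _ B hB x => s.bal X B (fun x γ y => by
    obtain ⟨γ, rfl⟩ := f.surj γ
    exact hB x γ y) x

end

section
variable {R Γ P A' I : Type} [CommRing R] [Ring Γ] [Algebra R Γ] [AddCommGroup P] [Module R P]
  [Ring A'] [Algebra R A'] [Fintype I]

theorem mu_l (B : BiM R Γ P) (β : P →ₗ[R] P →ₗ[R] Γ × P) (γ : Γ) (y : Γ × P) :
    B.mu β (γ, 0) y = (γ * y.1, B.lm γ y.2) := by
  show ((γ * y.1, B.lm γ y.2 + B.rm (op y.1) 0) : Γ × P) + β 0 y.2 = _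
  rw [map_zero, add_zero, map_zero, LinearMap.zero_apply, add_zero]

theorem mu_r (B : BiM R Γ P) (β : P →ₗ[R] P →ₗ[R] Γ × P) (γ : Γ) (x : Γ × P) :
    B.mu β x (γ, 0) = (x.1 * γ, B.rm (op γ) x.2) := by
  show ((x.1 * γ, B.lm x.1 0 + B.rm (op γ) x.2) : Γ × P) + β x.2 0 = _
  rw [map_zero, zero_add, map_zero, add_zero]

/-- the split structure of the lifted algebra -/
noncomputable def splitPS (B : BiM R Γ P) (β : P →ₗ[R] P →ₗ[R] Γ × P) (φ : (Γ × P) ≃ₗ[R] A')
    (h1 : φ (1, 0) = 1) (hm : ∀ x y, φ (B.mu β x y) = φ x * φ y) (c : FS R Γ I)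
    (a : P →ₗ[R] P) (ha : ∀ x, ∑ i, ∑ l, B.lm (c.b i) (B.rm (op (c.b' l))
      (a (B.lm (c.b' i) (B.rm (op (c.b l)) x)))) = x) : Split c A' where
  j :=
    { toFun := fun γ => φ (γ, 0)
      map_one' := h1
      map_mul' := fun x y => by
        rw [← hm, mu_l, map_zero]
      map_zero' := by
        show φ (0 : Γ × P) = 0
        exact map_zero φ
      map_add' := fun x y => by
        rw [← map_add, Prod.mk_add_mk, add_zero]
      commutes' := fun r => by
        show φ (algebraMap R Γ r, 0) = algebraMap R A' r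
        rw [Algebra.algebraMap_eq_smul_one, Algebra.algebraMap_eq_smul_one, ← h1, ← map_smul,
          Prod.smul_mk, smul_zero] }
  pr := LinearMap.fst R Γ P ∘ₗ φ.symm.toLinearMap
  pr_j := fun γ => by
    show (φ.symm (φ (γ, 0))).1 = γ
    rw [φ.symm_apply_apply]
  pr_l := fun γ x => by
    obtain ⟨y, rfl⟩ := φ.surjective x
    show (φ.symm (φ (γ, 0) * φ y)).1 = γ * (φ.symm (φ y)).1
    rw [← hm, φ.symm_apply_apply, φ.symm_apply_apply, mu_l]
  pr_r := fun x γ => by
    obtain ⟨y, rfl⟩ := φ.surjective x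
    show (φ.symm (φ y * φ (γ, 0))).1 = (φ.symm (φ y)).1 * γ
    rw [← hm, φ.symm_apply_apply, φ.symm_apply_apply, mu_r]
  a := φ.toLinearMap ∘ₗ LinearMap.inr R Γ P ∘ₗ a ∘ₗ LinearMap.snd R Γ P ∘ₗ φ.symm.toLinearMap
  a_id := fun x => by
    obtain ⟨y, rfl⟩ := φ.surjective x
    show ∑ i, ∑ l, φ (c.b i, 0) *
      φ (0, a (φ.symm (φ (c.b' i, 0) * φ y * φ (c.b l, 0))).2) * φ (c.b' l, 0) =
        φ y - φ ((φ.symm (φ y)).1, 0)
    have key : ∀ i l, φ (c.b i, 0) *
        φ (0, a (φ.symm (φ (c.b' i, 0) * φ y * φ (c.b l, 0))).2) * φ (c.b' l, 0) =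
        φ (0, B.lm (c.b i) (B.rm (op (c.b' l))
          (a (B.lm (c.b' i) (B.rm (op (c.b l)) y.2))))) := by
      intro i l
      rw [← hm, ← hm, ← hm, ← hm, φ.symm_apply_apply, mu_l, mu_r, mu_l, mu_r, mul_zero, zero_mul,
        B.comm, B.comm]
    simp only [key]
    rw [φ.symm_apply_apply, ← map_sub]
    simp only [← map_sum]
    congr 1
    refine Prod.ext ?_ ?_
    · simp [Prod.fst_sum]
    · simp only [Prod.snd_sum]
      rw [ha]
      simp

end

theorem exi (plf : PlfStmt) (alg : AlgStmt) (rng : RngStmt) (use : UseStmt) (fsl : FslStmt)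
    (cnv : CnvStmt) : ExiStmt := by
  intro F Γ Γ0 A I I0 J K _ _ _ _ _ _ _ _ _ _ _ _ _ _ c c0 f sp0 s fa
  let algA : Algebra (PowerSeries F) A :=
    Algebra.compHom A (PowerSeries.constantCoeff (R := F))
  have hA : ∀ r, algebraMap (PowerSeries F) A r =
    algebraMap F A (PowerSeries.constantCoeff r) := fun r => rfl
  have : IsScalarTower F (PowerSeries F) A := ⟨fun x r y => by
    rw [smul_eq hA, smul_eq hA, PowerSeries.smul_eq_C_mul, map_mul,
      PowerSeries.constantCoeff_C, mul_smul]⟩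
  have : Module.Finite (PowerSeries F) A :=
    Module.Finite.of_restrictScalars_finite F (PowerSeries F) A
  obtain ⟨a, ha⟩ := cnv F Γ Γ0 A I I0 c c0 f sp0
  obtain ⟨D, hDj, hDe⟩ : ∃ D : Res F Γ A I c, D.j = jPS hA f sp0.j ∧
      ∀ x, D.e x = sp0.j (sp0.pr x) := ⟨resPS hA c c0 f sp0 a ha, rfl, fun x => rfl⟩
  have sD : Sep Γ A K D.j.toRingHom := by
    rw [hDj]
    exact sepPS hA f sp0.j s
  obtain ⟨P, _, _, _, _, ⟨L⟩⟩ := plf F Γ A I c D
  obtain ⟨β, hβ1, hβ2, hβ3⟩ := alg F Γ A I K P c D sD L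
  obtain ⟨A', _, _, φ, h1, hm⟩ := rng (PowerSeries F) Γ P L.toBiM β hβ1 hβ2
  obtain ⟨a', ha'⟩ := use F Γ A I P c D L
  have : Module.Finite (PowerSeries F) A' := Module.Finite.equiv φ
  have : Module.Free (PowerSeries F) A' := Module.Free.of_equiv φ
  have hDj' : ∀ γ, D.j γ = sp0.j (f.q γ) := fun γ => by rw [hDj]; rfl
  -- the special fibre map
  have hq : ∀ x y, L.qq (x + y) = L.qq x + L.qq y := fun x y => by
    show D.j (x.1 + y.1) + L.q (x.2 + y.2) = (D.j x.1 + L.q x.2) + (D.j y.1 + L.q y.2)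
    rw [map_add, map_add]
    abel
  have hqm : ∀ x y, L.qq (L.toBiM.mu β x y) = L.qq x * L.qq y := fun x y => by
    show L.qq ((x.1 * y.1, L.lm x.1 y.2 + L.rm (op y.1) x.2) + β x.2 y.2) = _
    rw [hq, hβ3]
    show D.j (x.1 * y.1) + L.q (L.lm x.1 y.2 + L.rm (op y.1) x.2) + L.q x.2 * L.q y.2 =
      (D.j x.1 + L.q x.2) * (D.j y.1 + L.q y.2)
    rw [map_mul, map_add, L.q1, L.q2]
    noncomm_ring
  obtain ⟨fb, hfb⟩ : ∃ fb : Fib F A' A, ∀ x, fb.q x = L.qq (φ.symm x) := by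
    refine ⟨{ q := { toFun := fun x => L.qq (φ.symm x), map_one' := ?_, map_mul' := ?_,
                     map_zero' := ?_, map_add' := ?_ }, sc := ?_, surj := ?_, ker := ?_ },
      fun x => rfl⟩
    · rw [← h1, φ.symm_apply_apply]
      show D.j 1 + L.q 0 = 1
      rw [map_one, map_zero, add_zero]
    · intro x y
      obtain ⟨x, rfl⟩ := φ.surjective x
      obtain ⟨y, rfl⟩ := φ.surjective y
      rw [← hm, φ.symm_apply_apply, φ.symm_apply_apply, φ.symm_apply_apply, hqm]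
    · show D.j (φ.symm 0).1 + L.q (φ.symm 0).2 = 0
      rw [map_zero]
      show D.j 0 + L.q 0 = 0
      rw [map_zero, map_zero, add_zero]
    · intro x y
      rw [map_add, hq]
    · intro r
      show L.qq (φ.symm (algebraMap (PowerSeries F) A' r)) = _
      rw [Algebra.algebraMap_eq_smul_one, ← h1, ← map_smul, φ.symm_apply_apply]
      show D.j (r • 1) + L.q (r • 0) = _
      rw [smul_zero, map_zero, add_zero, map_smul, map_one, ← hA, Algebra.algebraMap_eq_smul_one]
    · intro y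
      obtain ⟨γ, hγ⟩ := D.e1 y
      obtain ⟨p, hp⟩ := L.q4 (y - D.e y) (by
        rw [map_sub, hγ, D.e2, sub_self])
      refine ⟨φ (γ, p), ?_⟩
      show L.qq (φ.symm (φ (γ, p))) = y
      rw [φ.symm_apply_apply]
      show D.j γ + L.q p = y
      rw [hp, hγ]
      abel
    · intro x hx
      obtain ⟨x, rfl⟩ := φ.surjective x
      have hx' : D.j x.1 + L.q x.2 = 0 := by
        have : L.qq (φ.symm (φ x)) = 0 := hx
        rw [φ.symm_apply_apply] at this
        exact this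
      have h2 : D.j x.1 = 0 := by
        have h3 := congrArg D.e hx'
        rw [map_add, D.e2, L.q3, add_zero, map_zero] at h3
        exact h3
      have h4 : L.q x.2 = 0 := by rw [h2, zero_add] at hx'; exact hx'
      obtain ⟨γ', hγ'⟩ := D.hj _ h2
      obtain ⟨y, hy⟩ := L.q5 _ h4
      refine ⟨φ (γ', y), ?_⟩
      rw [← map_smul]
      congr 1
      exact Prod.ext hγ' hy
  obtain ⟨J', _, ⟨d⟩⟩ := fsl F A' A J fb fa
  refine ⟨A', J', inferInstance, inferInstance, inferInstance, inferInstance, inferInstance,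
    ⟨{ d := d, sp := splitPS L.toBiM β φ h1 hm c a' ha', fb := fb, cj := ?_, cp := ?_ }⟩⟩
  · intro γ
    show fb.q (φ (γ, 0)) = sp0.j (f.q γ)
    rw [hfb, φ.symm_apply_apply]
    show D.j γ + L.q 0 = _
    rw [map_zero, add_zero, hDj']
  · intro x
    obtain ⟨x, rfl⟩ := φ.surjective x
    show sp0.pr (fb.q (φ x)) = f.q (φ.symm (φ x)).1
    rw [hfb, φ.symm_apply_apply]
    show sp0.pr (D.j x.1 + L.q x.2) = f.q x.1
    have h5 : sp0.pr (L.q x.2) = 0 := by
      have h6 := L.q3 x.2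
      rw [hDe] at h6
      have h7 := sp0.pr_j (sp0.pr (L.q x.2))
      rw [h6, map_zero] at h7
      exact h7.symm
    rw [map_add, h5, add_zero, hDj', sp0.pr_j]

end Pool.Agent.PFC.B1.H16
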